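import Pool.Agent.H97.NF.Targets

/-!
# Module INT of Part F of MP_57ddd5_pr: integrability of products of nice functions
-/

open MeasureTheory ProbabilityTheory Filter Topology
open scoped ENNReal

namespace Pool.Agent.H75.NF.INT

open Pool.Agent.H99.NS Pool.Agent.H97.NF

/-- A nice function is square integrable. -/
theorem memLp_nice (h1 : T_GMO) (h2 : T_NIC) {q : ℝ} (hq0 : 0 ≤ q) (hq1 : q < 1)
    {S : Finset Site} {g : Env → ℝ} (hg : Nice S g) : MemLp g 2 (PE q) := by
  have hx : ∀ x : Site, MemLp (fun ω : Env => (ω x : ℝ)) 2 (PE q) := by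
    intro x
    have hm : Measurable (fun ω : Env => (ω x : ℝ)) :=
      (measurable_from_nat (f := fun k : ℕ => (k : ℝ))).comp (measurable_pi_apply x)
    rw [memLp_two_iff_integrable_sq hm.aestronglyMeasurable]
    have h := (measurePreserving_eval_infinitePi (fun _ : Site => geo q) x).integrable_comp
      (g := fun k : ℕ => (k : ℝ) ^ 2) (h1 q hq0 hq1 2).aestronglyMeasurable
    exact h.2 (h1 q hq0 hq1 2)
  obtain ⟨C, hC, hb⟩ := hg.bd
  have hsum : MemLp (fun ω : Env => C * (1 + ∑ x ∈ S, (ω x : ℝ))) 2 (PE q) := by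
    have e1 : MemLp (fun ω : Env => ∑ x ∈ S, (ω x : ℝ)) 2 (PE q) :=
      memLp_finsetSum S (fun x _ => hx x)
    have e0 : MemLp (fun _ : Env => (1 : ℝ)) 2 (PE q) := memLp_const (1 : ℝ)
    have e2 : MemLp (fun ω : Env => 1 + ∑ x ∈ S, (ω x : ℝ)) 2 (PE q) := e0.add e1
    exact e2.const_mul C
  refine hsum.mono' (h2.1 S g hg).aestronglyMeasurable (Eventually.of_forall fun ω => ?_)
  rw [Real.norm_eq_abs]
  exact hb ω

theorem pf_INT (h1 : T_GMO) (h2 : T_NIC) (h3 : T_MAR) : T_INT := by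
  intro q hq0 hq1 S g h hg hh
  have mg := memLp_nice h1 h2 hq0 hq1 hg
  have mh := memLp_nice h1 h2 hq0 hq1 hh
  refine ⟨fun ρ => ?_, mg.integrable_mul mh, mg.integrable (by norm_num)⟩
  obtain ⟨hA, hB⟩ := h3 q ρ
  have gA := mg.comp_measurePreserving hA
  have gB := mg.comp_measurePreserving hB
  have hA' := mh.comp_measurePreserving hA
  have hB' := mh.comp_measurePreserving hB
  exact ⟨gA.integrable_mul hB', gA.integrable_mul hA', gB.integrable_mul hB'⟩

end Pool.Agent.H75.NF.INT
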