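import Pool.Agent.H97.NF.Targets

/-!
# Module PARTF of Part F of MP_57ddd5_pr: the assembly
-/

open MeasureTheory ProbabilityTheory Filter Topology
open scoped ENNReal

namespace Pool.Agent.H75.NF.PARTF

open Pool.Agent.H99.NS Pool.Agent.H97.NF

/-- `1 - exp (-t) ≥ min t 1 / 2`. -/
theorem half_min_le {t : ℝ} (ht : 0 < t) : min t 1 / 2 ≤ 1 - Real.exp (-t) := by
  have h1 : Real.exp (-t) * (1 + t) ≤ 1 := by
    have h2 : 1 + t ≤ Real.exp t := by linarith [Real.add_one_le_exp t]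
    calc Real.exp (-t) * (1 + t) ≤ Real.exp (-t) * Real.exp t :=
          mul_le_mul_of_nonneg_left h2 (Real.exp_pos _).le
      _ = 1 := by rw [← Real.exp_add]; simp
  have h3 : min t 1 * (1 + t) ≤ 2 * t := by
    rcases le_total t 1 with h | h
    · rw [min_eq_left h]; nlinarith
    · rw [min_eq_right h]; linarith
  have hpos : (0 : ℝ) < 1 + t := by linarith
  have h4 : min t 1 / 2 * (1 + t) ≤ (1 - Real.exp (-t)) * (1 + t) := by nlinarith
  exact le_of_mul_le_mul_right h4 hpos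

/-- Comparison of the two logarithmic factors. -/
theorem log_fac {x m r : ℝ} (hx : 0 < x) (hm : 0 < m) (hr : m / 2 ≤ r) :
    (1 + max 0 (Real.log (x * m))) / 2 ≤ 1 + max 0 (Real.log (x * r)) := by
  have hr0 : 0 < r := by linarith
  have h1 : Real.log (x * m) - Real.log 2 ≤ Real.log (x * r) := by
    rw [← Real.log_div (by positivity) (by norm_num)]
    apply Real.log_le_log (by positivity)
    have := mul_le_mul_of_nonneg_left hr hx.le
    linarith
  have h2 : Real.log 2 ≤ 1 := by linarith [Real.log_two_lt_d9]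
  have h3 : 0 ≤ max 0 (Real.log (x * r)) := le_max_left _ _
  have h4 : Real.log (x * r) ≤ max 0 (Real.log (x * r)) := le_max_right _ _
  rcases le_total (Real.log (x * m)) 0 with h | h
  · rw [max_eq_left h]; linarith
  · rw [max_eq_right h]; linarith

/-- The logarithmic factor is at most `n ^ (1/3)`. -/
theorem log_fac_le {n : ℕ} (hn : 1 ≤ n) {t : ℝ} (ht : 0 < t) :
    1 + max 0 (Real.log ((n : ℝ) ^ ((1 : ℝ) / 3) * min t 1)) ≤ (n : ℝ) ^ ((1 : ℝ) / 3) := by
  have hn1 : (1 : ℝ) ≤ n := by exact_mod_cast hn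
  have h1 : (1 : ℝ) ≤ (n : ℝ) ^ ((1 : ℝ) / 3) := Real.one_le_rpow hn1 (by norm_num)
  have hm : 0 < min t 1 := lt_min ht one_pos
  have hm1 : min t 1 ≤ 1 := min_le_right _ _
  have h2 : Real.log ((n : ℝ) ^ ((1 : ℝ) / 3) * min t 1) ≤ (n : ℝ) ^ ((1 : ℝ) / 3) - 1 := by
    refine (Real.log_le_sub_one_of_pos (by positivity)).trans ?_
    nlinarith
  have h3 : max 0 (Real.log ((n : ℝ) ^ ((1 : ℝ) / 3) * min t 1)) ≤
      (n : ℝ) ^ ((1 : ℝ) / 3) - 1 := max_le (by linarith) h2
  linarith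

theorem bound (hA : T_ALL) (hC : T_COR) (hV : T_VVF) {p : ℝ} (hp0 : 0 < p) (hp1 : p < 1)
    (hK : KK (1 - p)) (hD : DVar (1 - p)) :
    ∃ C : ℝ, ∀ n : ℕ, 2 ≤ n → ∀ t : ℝ, 0 < t →
    0 ≤ corrT p t n ∧
    corrT p t n ≤ C / (1 + max 0 (Real.log ((n : ℝ) ^ ((1 : ℝ) / 3) * min t 1))) := by
  have hq0 : 0 < 1 - p := by linarith
  have hq1 : 1 - p < 1 := by linarith
  obtain ⟨C, hCpos, hCall⟩ := hA (1 - p) hq0 hq1 hK hD
  obtain ⟨c, n0, hc, hvar⟩ := hD
  set s2 : ℝ := Var[fun k : ℕ => (k : ℝ); geo (1 - p)] with hs2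
  have hs2n : 0 ≤ s2 := variance_nonneg _ _
  refine ⟨s2 / c + 2 * C + n0 + 1, fun n hn t ht => ?_⟩
  have hn1 : (1 : ℝ) ≤ n := by exact_mod_cast (by omega : 1 ≤ n)
  obtain ⟨-, hVn, -, hVzero, -, hVmono, -⟩ := hV (1 - p) hq0.le hq1 n
  set v : ℝ := Var[ff n; PE (1 - p)] with hv
  have hvn : 0 ≤ v := variance_nonneg _ _
  set r : ℝ := 1 - Real.exp (-t) with hr
  have hrmin : min t 1 / 2 ≤ r := half_min_le ht
  have hm : 0 < min t 1 := lt_min ht one_pos
  have hr0 : 0 < r := by linarith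
  have hr1 : r ≤ 1 := by have := Real.exp_pos (-t); rw [hr]; linarith
  set V : ℝ := VV (1 - p) n (fun _ => r) with hVdef
  have hV0 : 0 ≤ V := hVn _
  have hVv : V ≤ v := by
    rw [← hVzero (fun _ => 0) (fun _ _ => rfl)]
    exact hVmono _ _ (fun x _ => ⟨le_refl _, hr0.le, hr1⟩)
  have hcor : corrT p t n = (Real.exp (-t) * s2 + V) / (s2 + v) := hC p hp0 hp1 t ht.le n
  have he0 : 0 < Real.exp (-t) := Real.exp_pos _
  have he1 : Real.exp (-t) ≤ 1 := by rw [Real.exp_le_one_iff]; linarith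
  have hes : Real.exp (-t) * s2 ≤ s2 := mul_le_of_le_one_left hs2n he1
  set x : ℝ := (n : ℝ) ^ ((1 : ℝ) / 3) with hx
  have hx1 : 1 ≤ x := Real.one_le_rpow hn1 (by norm_num)
  set L : ℝ := 1 + max 0 (Real.log (x * min t 1)) with hL
  have hL1 : 1 ≤ L := by have : 0 ≤ max 0 (Real.log (x * min t 1)) := le_max_left _ _
                         linarith
  have hLx : L ≤ x := log_fac_le (by omega) ht
  have hLpos : 0 < L := by linarith
  refine ⟨?_, ?_⟩
  · rw [hcor]
    positivity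
  · rw [le_div_iff₀ hLpos]
    have hc1 : corrT p t n ≤ 1 := by
      rw [hcor]
      exact div_le_one_of_le₀ (by linarith) (by linarith)
    by_cases hn0 : n0 ≤ n
    · -- large n
      have hv1 : c * (n : ℝ) ^ ((2 : ℝ) / 3) ≤ v := hvar n hn0
      have hx2 : (n : ℝ) ^ ((2 : ℝ) / 3) = x * x := by
        rw [hx, ← Real.rpow_add (by linarith)]; norm_num
      rw [hx2] at hv1
      have hvpos : 0 < v := lt_of_lt_of_le (by positivity) hv1
      have hall := hCall n (by omega) r hr0 hr1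
      have hlf := log_fac (x := x) (m := min t 1) (r := r) (by linarith) hm hrmin
      have hVL : V * L ≤ 2 * C * v := by
        have h5 : V * (L / 2) ≤ V * (1 + max 0 (Real.log (x * r))) :=
          mul_le_mul_of_nonneg_left hlf hV0
        linarith
      have hsL : s2 * L ≤ s2 / c * v := by
        have h6 : s2 / c * (c * (x * x)) ≤ s2 / c * v :=
          mul_le_mul_of_nonneg_left hv1 (by positivity)
        have h7 : s2 / c * (c * (x * x)) = s2 * (x * x) := by field_simp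
        have h8 : s2 * L ≤ s2 * (x * x) := by
          apply mul_le_mul_of_nonneg_left _ hs2n
          nlinarith
        linarith
      rw [hcor, div_mul_eq_mul_div, div_le_iff₀ (by linarith)]
      have h9 : Real.exp (-t) * s2 * L ≤ s2 * L :=
        mul_le_mul_of_nonneg_right hes hLpos.le
      have h10 : 0 ≤ s2 / c := by positivity
      have h11 : (0 : ℝ) ≤ n0 := Nat.cast_nonneg _
      have h12 : 0 ≤ s2 / c * s2 := by positivity
      have h13 : 0 ≤ C * s2 := by positivity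
      have h14 : 0 ≤ (n0 : ℝ) * s2 := by positivity
      have h15 : 0 ≤ (n0 : ℝ) * v := by positivity
      nlinarith
    · have hLn : L ≤ n0 := by
        have h1 : x ≤ n := by
          calc x = (n : ℝ) ^ ((1 : ℝ) / 3) := rfl
            _ ≤ (n : ℝ) ^ (1 : ℝ) := Real.rpow_le_rpow_of_exponent_le hn1 (by norm_num)
            _ = n := Real.rpow_one _
        have h2 : (n : ℝ) ≤ n0 := by exact_mod_cast (by omega : n ≤ n0)
        linarith
      have h10 : 0 ≤ s2 / c := by positivity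
      have h16 : corrT p t n * L ≤ 1 * L := mul_le_mul_of_nonneg_right hc1 hLpos.le
      linarith

theorem pf_PARTF (hA : T_ALL) (hC : T_COR) (hV : T_VVF) : T_PARTF := by
  intro p hp0 hp1 hK hD
  obtain ⟨C, hb⟩ := bound hA hC hV hp0 hp1 hK hD
  refine ⟨fun t ht hlim => ?_, C, hb⟩
  have hn3 : Tendsto (fun n : ℕ => (n : ℝ) ^ ((1 : ℝ) / 3)) atTop atTop :=
    (tendsto_rpow_atTop (by norm_num : (0 : ℝ) < 1 / 3)).comp tendsto_natCast_atTop_atTop
  have h1 : Tendsto (fun n : ℕ => (n : ℝ) ^ ((1 : ℝ) / 3) * min (t n) 1) atTop atTop := by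
    rw [tendsto_atTop]
    intro b
    filter_upwards [hlim.eventually_ge_atTop b, hn3.eventually_ge_atTop b] with n h2 h3
    rcases le_total (t n) 1 with h | h
    · rw [min_eq_left h]; exact h2
    · rw [min_eq_right h, mul_one]; exact h3
  have h2 : Tendsto (fun n : ℕ => 1 + max 0 (Real.log ((n : ℝ) ^ ((1 : ℝ) / 3) *
      min (t n) 1))) atTop atTop := by
    have h3 := Real.tendsto_log_atTop.comp h1
    refine tendsto_atTop_mono (fun n => ?_) h3
    have := le_max_right (0 : ℝ) (Real.log ((n : ℝ) ^ ((1 : ℝ) / 3) * min (t n) 1))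
    simp only [Function.comp_apply]
    linarith
  have h4 := h2.const_div_atTop C
  refine tendsto_of_tendsto_of_tendsto_of_le_of_le' tendsto_const_nhds h4 ?_ ?_
  · filter_upwards [eventually_ge_atTop 2] with n hn using (hb n hn (t n) (ht n)).1
  · filter_upwards [eventually_ge_atTop 2] with n hn using (hb n hn (t n) (ht n)).2

end Pool.Agent.H75.NF.PARTF
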